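import Pool.Agent.TH176.FB.Fat2
import Pool.Agent.TH176.FB.J25
import Pool.Agent.H737R3.Cont.Main

/-!
Fat points: orders of vanishing, and the surjectivity step.
-/

set_option autoImplicit false

namespace Pool.Agent.TH614.RC

open MvPolynomial Pool.Agent.H938R2 Pool.Agent.Chud

/-- translation -/
noncomputable def tr {n : ℕ} (v : Fin n → ℂ) : MvPolynomial (Fin n) ℂ →ₐ[ℂ] MvPolynomial (Fin n) ℂ :=
  aeval (fun j => (X j + C (v j) : MvPolynomial (Fin n) ℂ))

theorem tr_X {n : ℕ} (v : Fin n → ℂ) (j : Fin n) : tr v (X j) = X j + C (v j) := by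
  rw [tr, aeval_X]

theorem coeff_zero_tr {n : ℕ} (v : Fin n → ℂ) (F : MvPolynomial (Fin n) ℂ) :
    coeff 0 (tr v F) = eval v F :=
  Pool.Agent.TH176.FB.coeff_zero_shiftJ25 v F

theorem tr_neg {n : ℕ} (v : Fin n → ℂ) (F : MvPolynomial (Fin n) ℂ) :
    tr (fun j => - v j) (tr v F) = F := by
  have h : (tr (fun j => - v j)).comp (tr v) = AlgHom.id ℂ _ := by
    apply MvPolynomial.algHom_ext
    intro j
    rw [AlgHom.comp_apply, tr_X, map_add, tr_X, AlgHom.id_apply]
    have : tr (fun j => - v j) (C (v j)) = C (v j) := by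
      rw [tr, aeval_C]; rfl
    rw [this, map_neg]
    ring
  exact DFunLike.congr_fun h F

theorem mem_mI_iff {n : ℕ} (v : Fin n → ℂ) (m : ℕ) (F : MvPolynomial (Fin n) ℂ) :
    F ∈ mI v ^ m ↔ VanishesToOrder m v F := by
  have hV : VanishesToOrder m v F ↔ tr v F ∈ idealOfVars (Fin n) ℂ ^ m := by
    rw [mem_pow_idealOfVars_iff']
    constructor
    · intro h x hx
      exact h x (by omega)
    · intro h x hx
      exact h x (by omega)
  rw [hV]
  constructor
  · intro hF
    have h1 : Ideal.map (tr v).toRingHom (mI v) ≤ idealOfVars (Fin n) ℂ := by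
      rw [Ideal.map_le_iff_le_comap]
      intro G hG
      have h1 : tr v G ∈ idealOfVars (Fin n) ℂ ^ 1 := by
        rw [mem_pow_idealOfVars_iff']
        intro x hx
        have hx0 : x = 0 := by
          have : x.degree = 0 := by omega
          exact (Finsupp.degree_eq_zero_iff x).1 this
        rw [hx0, coeff_zero_tr]
        exact hG
      rw [pow_one] at h1
      exact h1
    have h2 : Ideal.map (tr v).toRingHom (mI v ^ m) ≤ idealOfVars (Fin n) ℂ ^ m := by
      rw [Ideal.map_pow]
      exact Ideal.pow_right_mono h1 m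
    exact h2 (Ideal.mem_map_of_mem (tr v).toRingHom hF)
  · intro hF
    have h1 : Ideal.map (tr (fun j => - v j)).toRingHom (idealOfVars (Fin n) ℂ) ≤ mI v := by
      rw [idealOfVars, Ideal.map_span, Ideal.span_le]
      rintro _ ⟨_, ⟨j, rfl⟩, rfl⟩
      show eval v (tr (fun j => - v j) (X j)) = 0
      rw [tr_X, map_add, eval_X, eval_C, add_neg_cancel]
    have h2 : Ideal.map (tr (fun j => - v j)).toRingHom (idealOfVars (Fin n) ℂ ^ m) ≤
        mI v ^ m := by
      rw [Ideal.map_pow]
      exact Ideal.pow_right_mono h1 m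
    have h3 := h2 (Ideal.mem_map_of_mem (tr (fun j => - v j)).toRingHom hF)
    have h4 : (tr (fun j => - v j)).toRingHom (tr v F) = F := tr_neg v F
    rwa [h4] at h3

/-- Cancellation of a variable which does not vanish at the point. -/
theorem cancel {n : ℕ} {v : Fin (n + 1) → ℂ} (hv : v 0 ≠ 0) {m : ℕ}
    {H : MvPolynomial (Fin (n + 1)) ℂ} (h : VanishesToOrder m v (X 0 * H)) :
    VanishesToOrder m v H := by
  classical
  have key : ∀ k : ℕ, ∀ x : Fin (n + 1) →₀ ℕ, x.degree = k → k < m → coeff x (tr v H) = 0 := by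
    intro k
    induction k using Nat.strong_induction_on with
    | _ k ih =>
      intro x hx hk
      have h1 : coeff x (tr v (X 0 * H)) = 0 := h x (by omega)
      rw [map_mul, tr_X, add_mul, coeff_add, coeff_C_mul, mul_comm (X 0) (tr v H),
        coeff_mul_X'] at h1
      split_ifs at h1 with h2
      · have h3 : (x - Finsupp.single 0 1).degree < k := by
          have h4 : x = (x - Finsupp.single 0 1) + Finsupp.single 0 1 := by
            ext j
            rw [Finsupp.add_apply, Finsupp.tsub_apply]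
            by_cases hj : j = 0
            · subst hj
              rw [Finsupp.single_eq_same]
              have := Finsupp.mem_support_iff.1 h2
              omega
            · rw [Finsupp.single_eq_of_ne hj]
              omega
          have h5 : x.degree = (x - Finsupp.single 0 1).degree + 1 := by
            conv_lhs => rw [h4]
            rw [map_add, Finsupp.degree_single]
          omega
        rw [ih _ h3 _ rfl (by omega), zero_add] at h1
        exact (mul_eq_zero.1 h1).resolve_left hv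
      · rw [zero_add] at h1
        exact (mul_eq_zero.1 h1).resolve_left hv
  intro x hx
  exact key _ x rfl hx

theorem vanish_mul_left {n m : ℕ} {v : Fin n → ℂ} (G : MvPolynomial (Fin n) ℂ)
    {F : MvPolynomial (Fin n) ℂ} (h : VanishesToOrder m v F) : VanishesToOrder m v (G * F) := by
  rw [← mem_mI_iff] at h ⊢
  exact Ideal.mul_mem_left _ _ h

section

variable {n s : ℕ} (p : Fin s → Fin (n + 2) → ℂ) (w : Fin s → ℕ)

/-- The surjectivity step. -/
theorem step (h0 : ∀ i, p i 0 ≠ 0) (d : ℕ)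
    (hd : Module.finrank ℂ (forms (n + 2) d w p) + ∑ i, (w i + n).choose (n + 1) =
      (d + (n + 1)).choose (n + 1)) :
    Module.finrank ℂ (forms (n + 2) (d + 1) w p) + ∑ i, (w i + n).choose (n + 1) =
      (d + 1 + (n + 1)).choose (n + 1) ∧
    ∀ G : MvPolynomial (Fin (n + 2)) ℂ, G.IsHomogeneous (d + 1) →
      ∃ H : MvPolynomial (Fin (n + 2)) ℂ, H.IsHomogeneous d ∧
        G - X 0 * H ∈ forms (n + 2) (d + 1) w p := by
  have hp : ∀ i, p i ≠ 0 := fun i h => h0 i (congrFun h 0)
  let L : MvPolynomial (Fin (n + 2)) ℂ →ₗ[ℂ] MvPolynomial (Fin (n + 2)) ℂ :=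
    LinearMap.mulLeft ℂ (X 0)
  have hL : ∀ F, L F = X 0 * F := fun F => rfl
  have hinj : Function.Injective L := by
    intro a b hab
    rw [hL, hL] at hab
    exact mul_left_cancel₀ (X_ne_zero _) hab
  set W := (allForms (n + 2) d).map L with hW
  set V := forms (n + 2) (d + 1) w p with hV
  have hWle : W ≤ allForms (n + 2) (d + 1) := by
    rintro _ ⟨F, hF, rfl⟩
    rw [mem_allForms, hL, add_comm d 1]
    exact (isHomogeneous_X _ _).mul (mem_allForms.1 hF)
  have hVle : V ≤ allForms (n + 2) (d + 1) := forms_le_allForms _ _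
  have hinf : W ⊓ V = (forms (n + 2) d w p).map L := by
    ext F
    constructor
    · rintro ⟨⟨G, hG, rfl⟩, h2⟩
      refine ⟨G, ⟨mem_allForms.1 hG, fun i => cancel (h0 i) (h2.2 i)⟩, rfl⟩
    · rintro ⟨G, hG, rfl⟩
      refine ⟨⟨G, mem_allForms.2 hG.1, rfl⟩, ?_, fun i => ?_⟩
      · rw [hL, add_comm d 1]
        exact (isHomogeneous_X _ _).mul hG.1
      · exact vanish_mul_left _ (hG.2 i)
  have e1 : Module.finrank ℂ W = (d + (n + 1)).choose (n + 1) := by
    rw [hW, ← (Submodule.equivMapOfInjective L hinj (allForms (n + 2) d)).finrank_eq]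
    exact finrank_allForms (n + 1) d
  have e2 : Module.finrank ℂ (W ⊓ V : Submodule ℂ (MvPolynomial (Fin (n + 2)) ℂ)) =
      Module.finrank ℂ (forms (n + 2) d w p) := by
    rw [hinf, ← (Submodule.equivMapOfInjective L hinj _).finrank_eq]
  have : Module.Finite ℂ W := Submodule.finiteDimensional_of_le hWle
  have : Module.Finite ℂ V := Submodule.finiteDimensional_of_le hVle
  have e3 := Submodule.finrank_sup_add_finrank_inf_eq W V
  have e4 : (d + 1 + (n + 1)).choose (n + 1) ≤ Module.finrank ℂ V +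
      ∑ i : Fin s, (w i + (n + 1) - 1).choose (n + 1) :=
    finrank_forms_ge (n + 1) (d + 1) w p hp
  have e5 : ∀ i, w i + (n + 1) - 1 = w i + n := fun i => by omega
  simp only [e5] at e4
  have e6 : Module.finrank ℂ (allForms (n + 2) (d + 1)) = (d + 1 + (n + 1)).choose (n + 1) :=
    finrank_allForms (n + 1) (d + 1)
  have e7 : Module.finrank ℂ (W ⊔ V : Submodule ℂ (MvPolynomial (Fin (n + 2)) ℂ)) ≤
      Module.finrank ℂ (allForms (n + 2) (d + 1)) := Submodule.finrank_mono (sup_le hWle hVle)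
  refine ⟨by omega, fun G hG => ?_⟩
  have e9 : W ⊔ V = allForms (n + 2) (d + 1) :=
    Submodule.eq_of_le_of_finrank_eq (sup_le hWle hVle) (by omega)
  have e10 : G ∈ W ⊔ V := by
    rw [e9]; exact mem_allForms.2 hG
  obtain ⟨_, ⟨H, hH, rfl⟩, F, hF, hGF⟩ := Submodule.mem_sup.1 e10
  refine ⟨H, mem_allForms.1 hH, ?_⟩
  have : G - X 0 * H = F := by
    rw [← hGF, hL]; ring
  rw [this]
  exact hF

theorem steps (h0 : ∀ i, p i 0 ≠ 0) (e : ℕ)
    (he : Module.finrank ℂ (forms (n + 2) e w p) + ∑ i, (w i + n).choose (n + 1) =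
      (e + (n + 1)).choose (n + 1)) (d : ℕ) (hd : e ≤ d) :
    Module.finrank ℂ (forms (n + 2) d w p) + ∑ i, (w i + n).choose (n + 1) =
      (d + (n + 1)).choose (n + 1) := by
  induction d, hd using Nat.le_induction with
  | base => exact he
  | succ d _ ih => exact (step p w h0 d ih).1

/-- The ideal generated in degrees at most `e + 1`. -/
noncomputable def J (e : ℕ) : Ideal (MvPolynomial (Fin (n + 2)) ℂ) :=
  Ideal.span {f | ∃ l ≤ e + 1, f.IsHomogeneous l ∧ ∀ i, f ∈ mI (p i) ^ w i}

theorem gen (h0 : ∀ i, p i 0 ≠ 0) (e : ℕ)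
    (he : Module.finrank ℂ (forms (n + 2) e w p) + ∑ i, (w i + n).choose (n + 1) =
      (e + (n + 1)).choose (n + 1)) (d : ℕ) (F : MvPolynomial (Fin (n + 2)) ℂ)
    (hF : F ∈ forms (n + 2) d w p) : F ∈ J p w e := by
  induction d using Nat.strong_induction_on generalizing F with
  | _ d ih =>
    by_cases hd : d ≤ e + 1
    · exact Ideal.subset_span ⟨d, hd, hF.1, fun i => (mem_mI_iff _ _ _).2 (hF.2 i)⟩
    obtain ⟨c, rfl⟩ : ∃ c, d = c + 2 := ⟨d - 2, by omega⟩
    have hs := (step p w h0 c (steps p w h0 e he c (by omega))).2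
    choose H hH1 hH2 using fun j : Fin (n + 2) => hs (pderiv j F) (by
      have := hF.1.pderiv (i := j)
      simpa using this)
    have hE : ∑ j, X j * pderiv j F = (c + 2) • F := hF.1.sum_X_mul_pderiv
    have h1 : ((c + 2 : ℕ) : ℂ) ≠ 0 := by
      exact_mod_cast (by omega : c + 2 ≠ 0)
    have h2 : (c + 2) • F = ∑ j, X j * (pderiv j F - X 0 * H j) + X 0 * ∑ j, X j * H j := by
      rw [← hE, Finset.mul_sum, ← Finset.sum_add_distrib]
      refine Finset.sum_congr rfl fun j _ => ?_
      ring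
    have hd1 : ∀ j, pderiv j F - X 0 * H j ∈ J p w e := fun j => ih (c + 1) (by omega) _ (hH2 j)
    have hsum1 : ∑ j, X j * (pderiv j F - X 0 * H j) ∈ J p w e :=
      Ideal.sum_mem _ fun j _ => Ideal.mul_mem_left _ _ (hd1 j)
    have hS : ∑ j, X j * H j ∈ forms (n + 2) (c + 1) w p := by
      refine ⟨?_, fun i => ?_⟩
      · apply IsHomogeneous.sum
        intro j _
        have h9 := (isHomogeneous_X ℂ j).mul (hH1 j)
        have h10 : 1 + c = c + 1 := by omega
        rw [h10] at h9
        exact h9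
      · apply cancel (h0 i)
        have h3 : X 0 * ∑ j, X j * H j = (c + 2) • F - ∑ j, X j * (pderiv j F - X 0 * H j) := by
          rw [h2]; ring
        rw [h3, ← mem_mI_iff]
        apply Ideal.sub_mem
        · rw [nsmul_eq_mul]
          exact Ideal.mul_mem_left _ _ ((mem_mI_iff _ _ _).2 (hF.2 i))
        · apply Ideal.sum_mem
          intro j _
          exact Ideal.mul_mem_left _ _ ((mem_mI_iff _ _ _).2 ((hH2 j).2 i))
    have h4 : (c + 2) • F ∈ J p w e := by
      rw [h2]
      exact Ideal.add_mem _ hsum1 (Ideal.mul_mem_left _ _ (ih (c + 1) (by omega) _ hS))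
    have h5 : F = C (((c + 2 : ℕ) : ℂ)⁻¹) * ((c + 2) • F) := by
      rw [nsmul_eq_mul, ← mul_assoc]
      have : ((c + 2 : ℕ) : MvPolynomial (Fin (n + 2)) ℂ) = C ((c + 2 : ℕ) : ℂ) :=
        (map_natCast (C : ℂ →+* MvPolynomial (Fin (n + 2)) ℂ) (c + 2)).symm
      rw [this, ← C_mul, inv_mul_cancel₀ h1, C_1, one_mul]
    rw [h5]
    exact Ideal.mul_mem_left _ _ h4

end

end Pool.Agent.TH614.RC
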