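import Pool.Agent.TH614.RC.A

/-!
Fat points: the containment from the regularity and the initial degree.
-/

set_option autoImplicit false

namespace Pool.Agent.TH614.RC

open MvPolynomial Pool.Agent.H938R2 Pool.Agent.Chud Pool.Agent.H737R3 Pool.Agent.H737R3.Cont

section

variable {n s : ℕ} (p : Fin s → Fin (n + 2) → ℂ)

/-- the degree of a form with given multiplicities -/
theorem low (w : Fin s → ℕ) (c : ℕ)
    (hbot : forms (n + 2) c w p = ⊥) (l : ℕ)
    (G : MvPolynomial (Fin (n + 2)) ℂ) (hG : G.IsHomogeneous l) (hG0 : G ≠ 0)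
    (h : ∀ i, G ∈ mI (p i) ^ w i) : c < l := by
  by_contra hl
  push Not at hl
  have h1 : X 0 ^ (c - l) * G ∈ forms (n + 2) c w p := by
    refine ⟨?_, fun i => ?_⟩
    · have h2 := ((isHomogeneous_X ℂ (0 : Fin (n + 2))).pow (c - l)).mul hG
      have h3 : 1 * (c - l) + l = c := by omega
      rw [h3] at h2
      exact h2
    · exact vanish_mul_left _ ((mem_mI_iff _ _ _).1 (h i))
  rw [hbot, Submodule.mem_bot] at h1
  rcases mul_eq_zero.1 h1 with h2 | h2
  · exact pow_ne_zero (c - l) (X_ne_zero (0 : Fin (n + 2))) h2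
  · exact hG0 h2

theorem low2 (hs : 0 < s) (hn : 1 ≤ n) (h0 : ∀ i, p i 0 ≠ 0) (μ : Fin s → ℕ)
    (hμ : ∀ i, 1 ≤ μ i) (k c : ℕ)
    (hbot : forms (n + 2) c (fun i => k * μ i) p = ⊥) (a l : ℕ) (ha : 0 < a)
    (G : MvPolynomial (Fin (n + 2)) ℂ) (hG : G.IsHomogeneous l) (hG0 : G ≠ 0)
    (h : ∀ i, G ∈ linI (p i) ^ (a * μ i)) : a * (c + 1) ≤ l * (k + n) := by
  by_contra hl
  push Not at hl
  have hp : ∀ i, p i ≠ 0 := fun i h => h0 i (congrFun h 0)
  have h1 : G ^ (k + n) ∈ lowI p (fun i => k * μ i) (l * (k + n) / a) ^ a := by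
    apply cont_low (n := n + 1) (by omega) hs ha p hp (fun i => k * μ i) (hG.pow (k + n))
    intro i
    have h2 := Ideal.pow_mem_pow (h i) (k + n)
    rw [← pow_mul] at h2
    refine Ideal.pow_le_pow_right ?_ h2
    have h3 : k * μ i + (n + 1) - 1 = k * μ i + n := by omega
    have h4 : n * 1 ≤ n * μ i := Nat.mul_le_mul_left _ (hμ i)
    rw [h3, mul_assoc]
    apply Nat.mul_le_mul_left
    have h5 : μ i * (k + n) = k * μ i + n * μ i := by ring
    omega
  have h2 : lowI p (fun i => k * μ i) (l * (k + n) / a) = ⊥ := by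
    rw [lowI, Ideal.span_eq_bot]
    rintro f ⟨l', hl', hf1, hf2⟩
    by_contra hf0
    have h3 := low p (fun i => k * μ i) c hbot l' f hf1 hf0 hf2
    have h4 : l * (k + n) / a < c + 1 := by
      rw [Nat.div_lt_iff_lt_mul ha, mul_comm (c + 1) a]
      exact hl
    omega
  rw [h2] at h1
  have h3 : G ^ (k + n) = 0 := by
    rw [Ideal.bot_pow ha.ne'] at h1
    exact h1
  exact pow_ne_zero _ hG0 h3

theorem J_eq (w : Fin s → ℕ) (h0 : ∀ i, p i 0 ≠ 0) (e : ℕ)
    (he : Module.finrank ℂ (forms (n + 2) e w p) + ∑ i, (w i + n).choose (n + 1) =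
      (e + (n + 1)).choose (n + 1)) : J p w e = ⨅ i, linI (p i) ^ w i := by
  have hp : ∀ i, p i ≠ 0 := fun i h => h0 i (congrFun h 0)
  apply le_antisymm
  · rw [J, Ideal.span_le]
    rintro f ⟨l, -, hf1, hf2⟩
    rw [SetLike.mem_coe, Submodule.mem_iInf]
    exact fun i => mem_linI_pow hf1 (hp i) (hf2 i)
  · intro F hF
    rw [Submodule.mem_iInf] at hF
    rw [← sum_homogeneousComponent F]
    apply Ideal.sum_mem
    intro d _
    apply gen p w h0 e he d
    refine ⟨homogeneousComponent_isHomogeneous d F, fun i => ?_⟩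
    rw [← mem_mI_iff]
    exact Ideal.pow_right_mono (linI_le_mI (p i)) _ (component_mem (p i) (w i) (hF i) d)

/-- The containment. -/
theorem det (hs : 0 < s) (hn : 1 ≤ n) (h0 : ∀ i, p i 0 ≠ 0) (μ : Fin s → ℕ)
    (hμ : ∀ i, 1 ≤ μ i) (m e : ℕ)
    (he : Module.finrank ℂ (forms (n + 2) e (fun i => m * μ i) p) +
      ∑ i, (m * μ i + n).choose (n + 1) = (e + (n + 1)).choose (n + 1))
    (a q E : ℕ) (ha : 1 ≤ a)
    (hbot : forms (n + 2) (a * ((e + 1 + E) * n) - 1)
      (fun i => q * ((e + 1 + E) * n) * μ i) p = ⊥)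
    (hE : q * (e + 1 + E) < a * (m + n)) (r : ℕ) :
    (⨅ i, linI (p i) ^ (r * (m + n) * μ i)) ≤
      irr ℂ (n + 1) ^ (r * E) * (⨅ i, linI (p i) ^ (m * μ i)) ^ r := by
  rcases Nat.eq_zero_or_pos r with hr | hr
  · subst hr
    simp only [Nat.zero_mul, pow_zero, Ideal.one_eq_top, Ideal.top_mul]
    exact le_top
  have hp : ∀ i, p i ≠ 0 := fun i h => h0 i (congrFun h 0)
  intro F hF
  rw [Submodule.mem_iInf] at hF
  rw [← sum_homogeneousComponent F]
  apply Ideal.sum_mem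
  intro l _
  set G := homogeneousComponent l F with hG
  have hGh : G.IsHomogeneous l := homogeneousComponent_isHomogeneous l F
  have hGm : ∀ i, G ∈ linI (p i) ^ (r * (m + n) * μ i) :=
    fun i => component_mem (p i) _ (hF i) l
  by_cases hG0 : G = 0
  · rw [hG0]; exact Ideal.zero_mem _
  set M := e + 1 + E with hM
  have hM1 : 1 ≤ M := by omega
  have hk1 : 1 ≤ M * n := Nat.mul_pos hM1 hn
  have htk : 1 ≤ a * (M * n) := Nat.mul_pos ha hk1
  have h1 := low2 p hs hn h0 μ hμ (q * (M * n)) (a * (M * n) - 1) hbot (r * (m + n)) l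
    (Nat.mul_pos hr (by omega)) G hGh hG0 hGm
  rw [Nat.sub_add_cancel htk] at h1
  have hl : r * M ≤ l := by
    by_contra hl
    push Not at hl
    have h2 : (l + 1) * (q * (M * n) + n) ≤ r * M * (q * (M * n) + n) :=
      Nat.mul_le_mul_right _ hl
    have h3 : r * (M * n) * (q * M + 1) ≤ r * (M * n) * (a * (m + n)) :=
      Nat.mul_le_mul_left _ hE
    nlinarith
  have h2 : G ∈ (J p (fun i => m * μ i) e) ^ r := by
    rw [J_eq p _ h0 e he]
    have h3 := Pool.Agent.H737R3.Cont.cont (n := n + 1) (by omega) hs hr p hp (fun i => m * μ i)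
    have h4 : G ∈ ⨅ i, linI (p i) ^ (r * (m * μ i + (n + 1) - 1)) := by
      rw [Submodule.mem_iInf]
      intro i
      refine Ideal.pow_le_pow_right ?_ (hGm i)
      have h5 : m * μ i + (n + 1) - 1 = m * μ i + n := by omega
      have h6 : n * 1 ≤ n * μ i := Nat.mul_le_mul_left _ (hμ i)
      rw [h5, mul_assoc]
      apply Nat.mul_le_mul_left
      have h7 : (m + n) * μ i = m * μ i + n * μ i := by ring
      omega
    have h5 : G ∈ irr ℂ (n + 1) ^ r * (⨅ i, linI (p i) ^ (m * μ i)) ^ r := h3 h4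
    exact (Ideal.mul_le_right : irr ℂ (n + 1) ^ r * (⨅ i, linI (p i) ^ (m * μ i)) ^ r ≤ _) h5
  have h3 : Pool.Agent.H915R3.ContT2.Pr (J p (fun i => m * μ i) e) (e + 1) :=
    Pool.Agent.H915R3.ContT2.Pr_span (fun f ⟨l, hl, hf, _⟩ => ⟨l, hl, hf⟩)
  have h4 := Pool.Agent.H915R3.ContT2.Pr_pow h3 r G h2 l
  rw [homogeneousComponent_of_mem ((mem_homogeneousSubmodule _ _).2 hGh), if_pos rfl,
    J_eq p _ h0 e he] at h4
  refine Ideal.mul_mono_left (Ideal.pow_le_pow_right ?_) h4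
  have h5 : r * M = r * (e + 1) + r * E := by rw [hM]; ring
  omega

end

end Pool.Agent.TH614.RC
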