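import Pool.Agent.TH614.RC.B

/-!
Fat points: general points.
-/

set_option autoImplicit false

namespace Pool.Agent.TH614.RC

open MvPolynomial Pool.Agent.H938R2 Pool.Agent.Chud Pool.Agent.H737R3 Pool.Agent.H737R3.Cont
open Pool.Agent.TH176.FB

/-- Independence of the conditions at at most `T ^ (n + 1)` general points of multiplicities at most
`W`. -/
theorem indep (n T s W k : ℕ) (w : Fin s → ℕ) (hw : ∀ i, w i ≤ W) (hT : 2 ≤ T)
    (hs : s ≤ T ^ (n + 1)) (hk : 2 * T * W + n * T ≤ 2 * k + n + 2) :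
    ForGeneral (n + 2) s (fun p =>
      Module.finrank ℂ (forms (n + 2) k w p) +
        ∑ i, (w i + n).choose (n + 1) = (k + (n + 1)).choose (n + 1)) := by
  have hmk : W ≤ k + 1 := by
    have h1 : 2 * 2 * W ≤ 2 * T * W := Nat.mul_le_mul_right _ (by omega)
    have h2 : n * 2 ≤ n * T := Nat.mul_le_mul_left _ hT
    omega
  have h1 := (Elim.main n s k (fun _ : Fin n => T) (fun _ => by omega)
    (fun i => k + 1 - (k + 1 - w i))).2.2 (fun l => J10.num n s (k + 1 - W) k T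
      (fun i => k + 1 - w i) hT (fun i => by have := hw i; omega) hs (by
        obtain ⟨v, hv⟩ : ∃ v, k + 1 = W + v := ⟨k + 1 - W, by omega⟩
        have h2 : k + 1 - W = v := by omega
        obtain ⟨s, rfl⟩ : ∃ s, T = s + 1 := ⟨T - 1, by omega⟩
        rw [h2, Nat.add_sub_cancel]
        zify at hk hv ⊢
        have h3 : (k : ℤ) = W + v - 1 := by linarith
        rw [h3] at hk ⊢
        nlinarith) l)
  have h6 : (fun i : Fin s => k + 1 - (k + 1 - w i)) = w := by
    funext i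
    have := hw i
    omega
  rw [h6] at h1
  have h7 : ∀ i, k + 1 - (k + 1 - w i) = w i := fun i => congrFun h6 i
  simp only [h7] at h1
  exact h1

/-- General points: more points. -/
theorem ForGeneral.more {N s S : ℕ} (hs : s ≤ S) {P : (Fin s → Fin N → ℂ) → Prop}
    (h : ForGeneral N s P) : ForGeneral N S (fun p => P (fun i => p (Fin.castLE hs i))) := by
  obtain ⟨D, hD, h⟩ := h
  let f : Fin s × Fin N → Fin S × Fin N := fun ij => (Fin.castLE hs ij.1, ij.2)
  have hf : Function.Injective f := by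
    rintro ⟨i, j⟩ ⟨i', j'⟩ h
    simp only [f, Prod.mk.injEq] at h
    obtain ⟨h1, h2⟩ := h
    rw [Prod.mk.injEq]
    exact ⟨(Fin.castLE_injective hs) h1, h2⟩
  refine ⟨rename f D, ?_, fun p hp => ?_⟩
  · intro h0
    exact hD (rename_injective f hf (by rw [h0, map_zero]))
  · apply h
    rw [eval_rename] at hp
    exact hp

/-- No forms of degree smaller than `t * m` at `t ^ (n + 1)` general points. -/
theorem bot_general (n t m k : ℕ) (ht : 1 ≤ t) (hk : k < t * m) :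
    ForGeneral (n + 2) (t ^ (n + 1)) (fun p => forms (n + 2) k (fun _ => m) p = ⊥) := by
  classical
  have hm : 1 ≤ m := by
    by_contra h
    have : m = 0 := by omega
    rw [this, mul_zero] at hk
    omega
  obtain ⟨Z, hZ, hV⟩ := exists_vanish (K := ℂ) (n + 1) t ht
  have hV' := hV (m - 1) k (by rw [Nat.sub_add_cancel hm]; exact hk)
  let e : Fin (t ^ (n + 1)) ≃ Z := (finCongr hZ.symm).trans Z.equivFin.symm
  refine Fat.general_bot hm (fun i => (e i : Fin (n + 1) → ℂ)) fun F hF h => ?_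
  refine hV' F hF fun q hq a ha => ?_
  have h1 := h (e.symm ⟨q, hq⟩) a ha
  rwa [Equiv.apply_symm_apply] at h1

theorem bot_more (n t m k s : ℕ) (w : Fin s → ℕ) (hw : ∀ i, m ≤ w i) (ht : 1 ≤ t)
    (hk : k < t * m) (hs : t ^ (n + 1) ≤ s) :
    ForGeneral (n + 2) s (fun p => forms (n + 2) k w p = ⊥) := by
  refine (ForGeneral.more hs (bot_general n t m k ht hk)).mono fun p hp => ?_
  rw [eq_bot_iff]
  intro F hF
  rw [← hp]
  exact ⟨hF.1, fun i => VanishesToOrder.mono (hw _) (hF.2 _)⟩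

theorem forGeneral_zero (n s : ℕ) : ForGeneral (n + 2) s (fun p => ∀ i, p i 0 ≠ 0) := by
  refine ⟨∏ i, X (i, 0), Finset.prod_ne_zero_iff.mpr fun i _ => X_ne_zero _,
    fun p hp i h0 => ?_⟩
  apply hp
  rw [map_prod]
  apply Finset.prod_eq_zero (Finset.mem_univ i)
  rw [eval_X]
  exact h0

/-- An upper bound for the number of pairs in the definition of `cap`. -/
theorem cap_le (n T : ℕ) (D : ℤ) :
    Elim.cap (fun _ : Fin n => T) D ≤ T ^ n * (D + 1).toNat := by
  classical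
  unfold Elim.cap
  have e : T ^ n * (D + 1).toNat = Nat.card ((Fin n → Fin T) × Fin (D + 1).toNat) := by
    rw [Nat.card_prod]
    simp
  rw [e]
  refine Nat.card_le_card_of_injective
    (fun x => (fun j => ⟨x.1.1 j, x.2.1 j⟩, ⟨x.1.2, by
        have h := x.2.2
        have h2 : ((x.1.2 : ℕ) : ℤ) ≤ D := by
          refine le_trans ?_ h
          exact_mod_cast Nat.le_add_left _ _
        omega⟩)) ?_
  rintro ⟨⟨a, b⟩, hx⟩ ⟨⟨a', b'⟩, hx'⟩ h
  simp only [Prod.mk.injEq, Fin.mk.injEq] at h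
  obtain ⟨h1, h2⟩ := h
  have h3 : a = a' := by
    funext j
    have := congrFun h1 j
    simpa using this
  subst h3
  subst h2
  rfl

/-- No forms of degree `d` if `T ^ n (d + 1) ≤ ∑ w i`, for `s ≤ T ^ (n + 1)` general points of
multiplicities `w i`. -/
theorem bot_elim (n T d s : ℕ) (w : Fin s → ℕ) (hT : 1 ≤ T) (hs : s ≤ T ^ (n + 1))
    (h : T ^ n * (d + 1) ≤ ∑ i, w i) :
    ForGeneral (n + 2) s (fun p => forms (n + 2) d w p = ⊥) := by
  refine (Elim.main n s d (fun _ : Fin n => T) (fun _ => hT) w).2.1 fun l => ?_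
  obtain ⟨L, hL⟩ : ∃ L, L = ∑ j, l j := ⟨_, rfl⟩
  have hLz : ((d : ℤ) - ∑ j, (T : ℤ) * l j) = (d : ℤ) - T * L := by
    rw [← Finset.mul_sum, hL]
    push_cast
    rfl
  rw [hLz]
  simp only [← hL]
  refine (cap_le n T _).trans ?_
  rcases Nat.lt_or_ge d (T * L) with h1 | h1
  · have h2 : ((d : ℤ) - T * L + 1).toNat = 0 := by
      apply Int.toNat_of_nonpos
      have : (d : ℤ) < T * L := by exact_mod_cast h1
      omega
    rw [h2, mul_zero]
    exact Nat.zero_le _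
  · obtain ⟨D, hD⟩ : ∃ D, d = T * L + D := Nat.exists_eq_add_of_le h1
    have h2 : ((d : ℤ) - T * L + 1).toNat = D + 1 := by
      rw [hD]
      push_cast
      have : (T : ℤ) * L + D - T * L + 1 = ((D + 1 : ℕ) : ℤ) := by push_cast; ring
      rw [this, Int.toNat_natCast]
    rw [h2]
    rw [hD] at h
    have h3 : s * L ≤ T ^ (n + 1) * L := Nat.mul_le_mul_right _ hs
    rw [pow_succ] at h3
    have h4 : T ^ n * (T * L + D + 1) = T ^ n * T * L + T ^ n * (D + 1) := by ring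
    rw [h4] at h
    have h5 : ∑ i, w i ≤ ∑ i, (w i - L) + s * L := by
      have h6 : s * L = ∑ _i : Fin s, L := by simp
      rw [h6, ← Finset.sum_add_distrib]
      exact Finset.sum_le_sum fun i _ => by omega
    omega

section

variable (n m T s e E : ℕ) (μ : Fin s → ℕ) (M : ℕ)

/-- The containment for general points. -/
theorem general (a q : ℕ) (hn : 1 ≤ n) (ha : 1 ≤ a) (hT : 2 ≤ T)
    (hs1 : 1 ≤ s) (hs2 : s ≤ T ^ (n + 1)) (hμ : ∀ i, 1 ≤ μ i) (hM : ∀ i, μ i ≤ M)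
    (he : 2 * T * (m * M) + n * T ≤ 2 * e + n + 2)
    (hbot : ∀ κ : ℕ, 1 ≤ κ → ForGeneral (n + 2) s (fun p =>
      forms (n + 2) (a * κ - 1) (fun i => q * κ * μ i) p = ⊥))
    (hE : q * (e + 1 + E) < a * (m + n)) :
    ForGeneral (n + 2) s (fun p => (∀ i, p i ≠ 0) ∧ ∀ r : ℕ,
      (⨅ i, linI (p i) ^ (r * (m + n) * μ i)) ≤
      irr ℂ (n + 1) ^ (r * E) * (⨅ i, linI (p i) ^ (m * μ i)) ^ r) := by
  have h1 := indep n T s (m * M) e (fun i => m * μ i)
    (fun i => Nat.mul_le_mul_left _ (hM i)) hT hs2 he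
  have h2 := hbot ((e + 1 + E) * n) (Nat.mul_pos (by omega) hn)
  refine ((h1.and h2).and (forGeneral_zero n s)).mono ?_
  rintro p ⟨⟨hp1, hbot⟩, h0⟩
  exact ⟨fun i h => h0 i (congrFun h 0), fun r =>
    det p hs1 hn h0 μ hμ m e hp1 a q E ha hbot hE r⟩

/-- The containment for general points: the bound from the sum of the multiplicities. -/
theorem generalA (hn : 1 ≤ n) (hT : 2 ≤ T)
    (hs2 : s ≤ T ^ (n + 1)) (hμ : ∀ i, 1 ≤ μ i) (hM : ∀ i, μ i ≤ M)
    (he : 2 * T * (m * M) + n * T ≤ 2 * e + n + 2)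
    (hE : T ^ n * (e + 1 + E) < (∑ i, μ i) * (m + n)) :
    ForGeneral (n + 2) s (fun p => (∀ i, p i ≠ 0) ∧ ∀ r : ℕ,
      (⨅ i, linI (p i) ^ (r * (m + n) * μ i)) ≤
      irr ℂ (n + 1) ^ (r * E) * (⨅ i, linI (p i) ^ (m * μ i)) ^ r) := by
  have ha : 1 ≤ ∑ i, μ i := by
    rcases Nat.eq_zero_or_pos (∑ i, μ i) with h | h
    · rw [h, zero_mul] at hE
      omega
    · exact h
  have hs1 : 1 ≤ s := by
    rcases Nat.eq_zero_or_pos s with h | h
    · subst h
      simp at ha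
    · exact h
  refine general n m T s e E μ M (∑ i, μ i) (T ^ n) hn ha hT hs1 hs2 hμ hM he (fun κ hκ => ?_) hE
  apply bot_elim n T _ s _ (by omega) hs2
  have h1 : 1 ≤ (∑ i, μ i) * κ := Nat.mul_pos ha hκ
  rw [Nat.sub_add_cancel h1, ← Finset.mul_sum]
  exact le_of_eq (by ring)

/-- The containment for general points: the bound from a smaller power. -/
theorem generalB (t ν : ℕ) (hn : 1 ≤ n) (ht : 1 ≤ t) (hT : 2 ≤ T) (hν : 1 ≤ ν)
    (hs1 : t ^ (n + 1) ≤ s) (hs2 : s ≤ T ^ (n + 1)) (hμ : ∀ i, ν ≤ μ i) (hM : ∀ i, μ i ≤ M)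
    (he : 2 * T * (m * M) + n * T ≤ 2 * e + n + 2)
    (hE : e + 1 + E < t * ν * (m + n)) :
    ForGeneral (n + 2) s (fun p => (∀ i, p i ≠ 0) ∧ ∀ r : ℕ,
      (⨅ i, linI (p i) ^ (r * (m + n) * μ i)) ≤
      irr ℂ (n + 1) ^ (r * E) * (⨅ i, linI (p i) ^ (m * μ i)) ^ r) := by
  have hs : 1 ≤ s := le_trans (Nat.pow_pos ht) hs1
  refine general n m T s e E μ M (t * ν) 1 hn (Nat.mul_pos ht hν) hT hs hs2
    (fun i => le_trans hν (hμ i)) hM he (fun κ hκ => ?_) (by rw [one_mul]; exact hE)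
  have h1 : 1 ≤ t * ν * κ := Nat.mul_pos (Nat.mul_pos ht hν) hκ
  have h2 : t * ν * κ = t * (κ * ν) := by ring
  refine bot_more n t (κ * ν) (t * ν * κ - 1) s _ (fun i => ?_) ht (by omega) hs1
  rw [one_mul]
  exact Nat.mul_le_mul_left _ (hμ i)

end

end Pool.Agent.TH614.RC
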